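import Pool.Agent.H698.HF.Core
import Pool.Graph.R_seed8.H560R2.Sum8

set_option autoImplicit false

/-! # 3SUM and circuits with unknown inputs: the lower bound (helper660) -/

open scoped Classical
open Finset Filter

namespace Pool.Agent.H660.US

open Pool.Agent.H698.HF

/-- `S` has three pairwise different elements `a`, `b`, `c` with `a + b = c`. -/
def HasSum (S : Finset ℤ) : Prop :=
  ∃ a ∈ S, ∃ b ∈ S, ∃ c ∈ S, a ≠ b ∧ a ≠ c ∧ b ≠ c ∧ a + b = c

/-- The randomised circuit `l`, which has the form `l ω` with probability `p ω`, solves 3SUM with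
advantage `δ` for the sets of at most `n` integers from the domain `U`: there are output gates
`out ω` and upper sets `acc ω` of values that mean yes such that for all these sets `S` the answer is
yes with probability at least `1 / 2 + δ` if `S` has a solution and the elements of `S` are known
(for all other integers it is unknown whether they belong to `S`), and the answer is not yes with
probability at least `1 / 2 + δ` if `S` has no solution and everything is known. -/
def SolvesS (n : ℕ) (U : Finset ℤ) (δ : ℝ) {D : Type} [PartialOrder D] {Ω : Type} [Fintype Ω]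
    (p : Ω → ℝ) (l : Ω → List (Know ℤ → D)) : Prop :=
  (∀ ω, 0 ≤ p ω) ∧ ∑ ω, p ω = 1 ∧
  ∃ (out : Ω → Know ℤ → D) (acc : Ω → Set D),
    (∀ ω, out ω ∈ l ω) ∧ (∀ ω, IsUpperSet (acc ω)) ∧
    ∀ S : Finset ℤ, S ⊆ U → S.card ≤ n →
      (HasSum S →
        1 / 2 + δ ≤ ∑ ω ∈ univ.filter (fun ω => out ω (truths (· ∈ S)) ∈ acc ω), p ω) ∧
      (¬ HasSum S →
        1 / 2 + δ ≤ ∑ ω ∈ univ.filter (fun ω => out ω (full (· ∈ S)) ∉ acc ω), p ω)

/-- the value of an input -/
noncomputable def bitv (x : ℤ → Bool) (z : ℤ) : ℝ := if x z = true then 1 else 0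

/-- `F` is computed by one monotone real gate from the inputs and the functions in `l` -/
def Good (l : List ((ℤ → Bool) → ℝ)) (F : (ℤ → Bool) → ℝ) : Prop :=
  ∃ (op : (Fin 2 → ℝ) → ℝ) (a : Fin 2 → ℤ ⊕ ((ℤ → Bool) → ℝ)), Monotone op ∧
    (∀ j G, a j = Sum.inr G → G ∈ l) ∧
    ∀ x, F x = op fun j => Sum.elim (bitv x) (fun G => G x) (a j)

/-- straight-line programs -/
def Pr (l : List ((ℤ → Bool) → ℝ)) : Prop :=
  ∀ (q : ℕ) (hq : q < l.length), Good (l.drop (q + 1)) l[q]

theorem Pr.cons {l : List ((ℤ → Bool) → ℝ)} {F : (ℤ → Bool) → ℝ} (h : Pr l) (hF : Good l F) :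
    Pr (F :: l) := by
  intro q hq
  cases q with
  | zero => simpa using hF
  | succ q =>
    have := h q (by simpa using hq)
    simpa using this

theorem pr_bit (l : List ((ℤ → Bool) → ℝ)) (e : ℤ) (h : Pr l) :
    Pr ((fun x : ℤ → Bool => if x e = true then (1 : ℝ) else 0) :: l) := by
  refine h.cons ⟨fun v => v 0, fun _ => Sum.inl e, fun v w hvw => hvw 0, ?_, fun x => rfl⟩
  intro j G hG
  exact absurd hG (by simp)

theorem pr_const (l : List ((ℤ → Bool) → ℝ)) (c : ℝ) (h : Pr l) :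
    Pr ((fun _ : ℤ → Bool => c) :: l) := by
  refine h.cons ⟨fun _ => c, fun _ => Sum.inl 0, fun v w _ => le_rfl, ?_, fun x => rfl⟩
  intro j G hG
  exact absurd hG (by simp)

theorem pr_gate (l : List ((ℤ → Bool) → ℝ)) (Φ : ℝ → ℝ → ℝ) (F G : (ℤ → Bool) → ℝ) (h : Pr l)
    (hΦ : ∀ a a' b b', a ≤ a' → b ≤ b' → Φ a b ≤ Φ a' b') (hF : F ∈ l) (hG : G ∈ l) :
    Pr ((fun x => Φ (F x) (G x)) :: l) := by
  refine h.cons ⟨fun v => Φ (v 0) (v 1), ![Sum.inr F, Sum.inr G],
    fun v w hvw => hΦ _ _ _ _ (hvw 0) (hvw 1), ?_, fun x => rfl⟩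
  intro j K hK
  fin_cases j
  · have : F = K := by simpa using hK
    rw [← this]; exact hF
  · have : G = K := by simpa using hK
    rw [← this]; exact hG

/-- conversion to the circuits of the library -/
theorem fin_of_pr {l : List ((ℤ → Bool) → ℝ)} (h : Pr l) {F : (ℤ → Bool) → ℝ} (hF : F ∈ l) :
    ∃ (ar : Fin l.length → Fin 2 → ℤ ⊕ Fin l.length) (op : Fin l.length → (Fin 2 → ℝ) → ℝ)
      (val : (ℤ → Bool) → Fin l.length → ℝ) (o : Fin l.length),
      (∀ i j k, ar i j = Sum.inr k → k < i) ∧ (∀ i, Monotone (op i)) ∧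
      (∀ x i, val x i = op i fun j => Sum.elim (bitv x) (val x) (ar i j)) ∧
      ∀ x, val x o = F x := by
  have h' : ∀ i : Fin l.length, Good (l.drop (l.length - 1 - i + 1)) (l[l.length - 1 - i]'(by
      have := i.2; omega)) := fun i => h _ _
  choose op a h1 h2 h3 using h'
  have key : ∀ (i : Fin l.length) (G : (ℤ → Bool) → ℝ), G ∈ l.drop (l.length - 1 - i + 1) →
      ∃ k : Fin l.length, k < i ∧ G = l[l.length - 1 - k]'(by have := k.2; omega) := by
    intro i G hG
    obtain ⟨q, hq, rfl⟩ := List.mem_iff_getElem.1 hG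
    rw [List.length_drop] at hq
    have hi := i.2
    refine ⟨⟨l.length - 1 - (l.length - 1 - i + 1 + q), by omega⟩, ?_, ?_⟩
    · rw [Fin.lt_def]
      show l.length - 1 - (l.length - 1 - i + 1 + q) < i
      omega
    · rw [List.getElem_drop]
      congr 1
      show _ = l.length - 1 - (l.length - 1 - (l.length - 1 - i + 1 + q))
      omega
  let ar : Fin l.length → Fin 2 → ℤ ⊕ Fin l.length := fun i j =>
    match ha : a i j with
    | Sum.inl z => Sum.inl z
    | Sum.inr G => Sum.inr (key i G (h2 i j G ha)).choose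
  have har1 : ∀ i j z, a i j = Sum.inl z → ar i j = Sum.inl z := by
    intro i j z hz
    simp only [ar]
    split
    · next z' hz' => rw [hz] at hz'; rw [Sum.inl.inj hz']
    · next G hG => rw [hz] at hG; exact absurd hG (by simp)
  have har2 : ∀ i j G (hG : a i j = Sum.inr G),
      ∃ k : Fin l.length, ar i j = Sum.inr k ∧ k < i ∧
        G = l[l.length - 1 - k]'(by have := k.2; omega) := by
    intro i j G hG
    simp only [ar]
    split
    · next z' hz' => rw [hG] at hz'; exact absurd hz' (by simp)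
    · next G' hG' =>
      have e : G' = G := by rw [hG] at hG'; exact (Sum.inr.inj hG').symm
      subst e
      exact ⟨_, rfl, (key i G' (h2 i j G' hG')).choose_spec.1,
        (key i G' (h2 i j G' hG')).choose_spec.2⟩
  obtain ⟨q, hq, hqF⟩ := List.mem_iff_getElem.1 hF
  refine ⟨ar, op, fun x i => (l[l.length - 1 - i]'(by have := i.2; omega)) x,
    ⟨l.length - 1 - q, by omega⟩, ?_, h1, ?_, ?_⟩
  · intro i j k hk
    rcases ha : a i j with z | G
    · rw [har1 i j z ha] at hk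
      exact absurd hk (by simp)
    · obtain ⟨k', e1, e2, -⟩ := har2 i j G ha
      rw [e1] at hk
      rw [← Sum.inr.inj hk]
      exact e2
  · intro x i
    dsimp only
    rw [h3 i x]
    congr 1
    funext j
    rcases ha : a i j with z | G
    · rw [har1 i j z ha]
      rfl
    · obtain ⟨k', e1, -, e3⟩ := har2 i j G ha
      rw [e1, Sum.elim_inr, Sum.elim_inr]
      rw [← e3]
  · intro x
    dsimp only
    rw [← hqF]
    have e : l.length - 1 - (l.length - 1 - q) = q := by omega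
    have e' : l[l.length - 1 - (l.length - 1 - q)]'(by omega) = l[q] := by
      congr 1
    exact congrFun e' x

/-- the accepted sets of a circuit are those of a monotone real circuit -/
theorem circuit_of {D : Type} [PartialOrder D] (hD : TreeLike D) {l : List (Know ℤ → D)}
    (hl : Circ l) (A : Set D) (hA : IsUpperSet A) {out : Know ℤ → D} (hout : out ∈ l) :
    ∃ (s : ℕ) (ar : Fin s → Fin 2 → ℤ ⊕ Fin s) (op : Fin s → (Fin 2 → ℝ) → ℝ)
      (val : (ℤ → Bool) → Fin s → ℝ) (o : Fin s), s = l.length + 1 ∧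
      (∀ i j k, ar i j = Sum.inr k → k < i) ∧ (∀ i, Monotone (op i)) ∧
      (∀ x i, val x i = op i fun j => Sum.elim (bitv x) (val x) (ar i j)) ∧
      ∀ S : Finset ℤ, 1 ≤ val (fun z => decide (z ∈ S)) o ↔ out (truths (· ∈ S)) ∈ A := by
  obtain ⟨l', h1, h2, F, hF, hF'⟩ := simulate_out hD
    (fun (x : ℤ → Bool) (e : ℤ) => x e = true) Pr
    (fun q hq => absurd hq (by simp)) (fun l e h => by
      have := pr_bit l e h
      convert this using 2
      funext x
      by_cases h : x e = true <;> simp [h]) pr_const pr_gate hl A hA hout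
  obtain ⟨ar, op, val, o, g1, g2, g3, g4⟩ := fin_of_pr h1 hF
  refine ⟨l'.length, ar, op, val, o, h2, g1, g2, g3, fun S => ?_⟩
  rw [g4, ← hF']
  have e : (fun e => (fun z => decide (z ∈ S)) e = true) = (fun e => e ∈ S) := by
    funext e
    simp
  simp only [e]

theorem lowerS {t b : ℝ} (ht : 0 ≤ t) (ht2 : t < 2) (hb : 0 < b) :
    ∃ α : ℝ, 0 < α ∧ ∀ᶠ n : ℕ in atTop, ∀ U : Finset ℤ,
      (∀ z : ℤ, 0 ≤ z → (z : ℝ) ≤ (n : ℝ) ^ (1 + b) → z ∈ U) →
      ∀ (D : Type) [PartialOrder D], TreeLike D → ∀ (δ : ℝ) (Ω : Type) [Fintype Ω]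
        (p : Ω → ℝ) (l : Ω → List (Know ℤ → D)), (∀ ω, Circ (l ω)) →
        SolvesS n U δ p l →
        (2 * δ - (n : ℝ) ^ (-α)) * (n : ℝ) ^ t ≤ ∑ ω, p ω * ((l ω).length : ℝ) + 1 := by
  obtain ⟨α, hα, n0, hmain⟩ := Pool.Agent.H560R2.sum_hard 0 t b le_rfl ht hb (by linarith)
  refine ⟨α, hα, ?_⟩
  filter_upwards [eventually_ge_atTop n0, eventually_ge_atTop 1] with n hn hn1
  intro U hU D _ hD δ Ω _ p l hl hs
  obtain ⟨Λ, _, _, yes, no, hyes, hno, hadv⟩ := hmain n hn
  rw [add_zero] at hyes hno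
  obtain ⟨hp, hp1, out, acc, h1, h2, h3⟩ := hs
  have hn0 : (0 : ℝ) < n := by exact_mod_cast hn1
  have hnt : (0 : ℝ) < (n : ℝ) ^ t := Real.rpow_pos_of_pos hn0 t
  have hnα : (0 : ℝ) < (n : ℝ) ^ (-α) := Real.rpow_pos_of_pos hn0 _
  have hΛ : (0 : ℝ) < Fintype.card Λ := by exact_mod_cast Fintype.card_pos
  have hsub : ∀ S : Finset ℤ, (∀ z ∈ S, 0 ≤ z ∧ (z : ℝ) ≤ (n : ℝ) ^ (1 + b)) → S ⊆ U :=
    fun S hS z hz => hU z (hS z hz).1 (hS z hz).2
  -- each circuit
  have hA : ∀ ω, ((univ.filter fun i : Λ => out ω (truths (· ∈ yes i)) ∈ acc ω).card : ℝ) -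
      ((univ.filter fun i : Λ => out ω (truths (· ∈ no i)) ∈ acc ω).card : ℝ) ≤
      ((n : ℝ) ^ (-α) + (((l ω).length : ℝ) + 1) / (n : ℝ) ^ t) * Fintype.card Λ := by
    intro ω
    rcases le_or_gt ((((l ω).length : ℝ) + 1)) ((n : ℝ) ^ t) with hlen | hlen
    · obtain ⟨s, ar, op, val, o, e0, e1, e2, e3, e4⟩ := circuit_of hD (hl ω) (acc ω) (h2 ω) (h1 ω)
      have h := hadv s ∅ (fun _ => 2) ar op (fun _ _ => 0) val o 1 e1
        (fun i _ => ⟨le_rfl, e2 i⟩) (fun i hi => absurd hi (by simp)) (fun x i => e3 x i)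
        (by rw [e0]; simpa using hlen) (by simp)
      simp only [e4] at h
      rw [div_add' _ _ _ hΛ.ne', div_le_div_iff_of_pos_right hΛ] at h
      have h5 : 0 ≤ (((l ω).length : ℝ) + 1) / (n : ℝ) ^ t := by positivity
      nlinarith [mul_nonneg h5 hΛ.le]
    · have h4 : 1 ≤ (((l ω).length : ℝ) + 1) / (n : ℝ) ^ t := by
        rw [one_le_div hnt]
        exact hlen.le
      have h5 : ((univ.filter fun i : Λ => out ω (truths (· ∈ yes i)) ∈ acc ω).card : ℝ) ≤
          Fintype.card Λ := by exact_mod_cast card_le_univ _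
      have h6 : (0 : ℝ) ≤ (univ.filter fun i : Λ => out ω (truths (· ∈ no i)) ∈ acc ω).card :=
        Nat.cast_nonneg _
      nlinarith [mul_pos hnα hΛ, mul_le_mul_of_nonneg_right h4 hΛ.le]
  -- each input
  let ay : Ω → Λ → ℝ := fun ω i => if out ω (truths (· ∈ yes i)) ∈ acc ω then 1 else 0
  let an : Ω → Λ → ℝ := fun ω i => if out ω (truths (· ∈ no i)) ∈ acc ω then 1 else 0
  have hY : ∀ i, 1 / 2 + δ ≤ ∑ ω, p ω * ay ω i := by
    intro i
    refine ((h3 (yes i) (hsub _ (hyes i).2.1) (hyes i).1).1 (hyes i).2.2).trans ?_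
    rw [sum_filter]
    refine sum_le_sum fun ω _ => ?_
    simp only [ay]
    split_ifs <;> simp
  have hN : ∀ i, ∑ ω, p ω * an ω i ≤ 1 / 2 - δ := by
    intro i
    have h4 := (h3 (no i) (hsub _ (hno i).2.1) (hno i).1).2 (hno i).2.2
    rw [sum_filter] at h4
    have h5 : ∑ ω, p ω * an ω i + ∑ ω, (if out ω (full (· ∈ no i)) ∉ acc ω then p ω else 0) ≤
        ∑ ω, p ω := by
      rw [← sum_add_distrib]
      refine sum_le_sum fun ω _ => ?_
      simp only [an]
      by_cases h6 : out ω (truths (· ∈ no i)) ∈ acc ω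
      · have h7 : out ω (full (· ∈ no i)) ∈ acc ω :=
          h2 ω ((hl ω).mono _ (h1 ω) _ _ (truths_le_full _)) h6
        simp [h6, h7]
      · rw [if_neg h6, mul_zero, zero_add]
        by_cases h7 : out ω (full (· ∈ no i)) ∈ acc ω
        · rw [if_neg (not_not.2 h7)]
          exact hp ω
        · rw [if_pos h7]
    linarith
  -- average
  have hsum : ∑ ω, p ω * ((∑ i, ay ω i) - ∑ i, an ω i) ≤
      ∑ ω, p ω * (((n : ℝ) ^ (-α) + (((l ω).length : ℝ) + 1) / (n : ℝ) ^ t) *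
        Fintype.card Λ) := by
    refine sum_le_sum fun ω _ => mul_le_mul_of_nonneg_left ?_ (hp ω)
    have := hA ω
    simp only [ay, an]
    rw [← natCast_card_filter, ← natCast_card_filter]
    exact this
  have hlow : 2 * δ * Fintype.card Λ ≤ ∑ ω, p ω * ((∑ i, ay ω i) - ∑ i, an ω i) := by
    have e1 : ∑ ω, p ω * ((∑ i, ay ω i) - ∑ i, an ω i) =
        ∑ i, ((∑ ω, p ω * ay ω i) - ∑ ω, p ω * an ω i) := by
      simp only [mul_sub, mul_sum, sum_sub_distrib]
      rw [sum_comm, sum_comm (f := fun ω i => p ω * an ω i)]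
    rw [e1]
    calc 2 * δ * Fintype.card Λ = ∑ _i : Λ, 2 * δ := by
          rw [sum_const, card_univ, nsmul_eq_mul, mul_comm]
      _ ≤ _ := sum_le_sum fun i _ => by linarith [hY i, hN i]
  have e2 : ∑ ω, p ω * (((n : ℝ) ^ (-α) + (((l ω).length : ℝ) + 1) / (n : ℝ) ^ t) *
        Fintype.card Λ) = ((n : ℝ) ^ (-α) + (∑ ω, p ω * ((l ω).length : ℝ) + 1) / (n : ℝ) ^ t) *
        Fintype.card Λ := by
    have e3 : ∀ ω, p ω * (((n : ℝ) ^ (-α) + (((l ω).length : ℝ) + 1) / (n : ℝ) ^ t) *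
        Fintype.card Λ) = p ω * ((n : ℝ) ^ (-α) * Fintype.card Λ) +
        (p ω * ((l ω).length : ℝ)) * (1 / (n : ℝ) ^ t * Fintype.card Λ) +
        p ω * (1 / (n : ℝ) ^ t * Fintype.card Λ) := by
      intro ω; ring
    rw [sum_congr rfl fun ω _ => e3 ω, sum_add_distrib, sum_add_distrib, ← sum_mul, ← sum_mul,
      ← sum_mul, hp1]
    ring
  rw [e2] at hsum
  have h9 := hlow.trans hsum
  have h10 : 2 * δ ≤ (n : ℝ) ^ (-α) + (∑ ω, p ω * ((l ω).length : ℝ) + 1) / (n : ℝ) ^ t :=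
    le_of_mul_le_mul_right h9 hΛ
  have h11 : 2 * δ - (n : ℝ) ^ (-α) ≤ (∑ ω, p ω * ((l ω).length : ℝ) + 1) / (n : ℝ) ^ t := by
    linarith
  rwa [le_div_iff₀ hnt] at h11

end Pool.Agent.H660.US
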