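import Pool.Agent.H660.US.Low
import Pool.Agent.H660.UT.Up

set_option autoImplicit false

/-! # The naive three-valued circuits for 3SUM with partial knowledge (helper660) -/

open scoped Classical
open Finset

namespace Pool.Agent.H660.US

open Pool.Agent.H698.HF
open Flat (unknown known)
open Pool.Agent.H660.UT (kor kand kor_true kor_false kand_true kand_false kor_mono kand_mono inp
  inp_eq)

theorem hasSum_iff (S : Finset ℤ) :
    HasSum S ↔ ∃ a b, a < b ∧ a ≠ 0 ∧ b ≠ 0 ∧ a ∈ S ∧ b ∈ S ∧ a + b ∈ S := by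
  constructor
  · rintro ⟨a, ha, b, hb, c, hc, h1, h2, h3, h4⟩
    have ha0 : a ≠ 0 := by rintro rfl; exact h3 (by omega)
    have hb0 : b ≠ 0 := by rintro rfl; exact h2 (by omega)
    rcases lt_or_gt_of_ne h1 with h | h
    · exact ⟨a, b, h, ha0, hb0, ha, hb, by rw [h4]; exact hc⟩
    · exact ⟨b, a, h, hb0, ha0, hb, ha, by rw [add_comm, h4]; exact hc⟩
  · rintro ⟨a, b, h, ha0, hb0, ha, hb, hc⟩
    exact ⟨a, ha, b, hb, a + b, hc, h.ne, by omega, by omega, rfl⟩

/-- the value for one pair of summands -/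
def trv (t : ℤ × ℤ) (P : Know ℤ) : Flat Bool :=
  kand (kand (inp (P t.1)) (inp (P t.2))) (inp (P (t.1 + t.2)))

/-- the disjunction over a list of pairs -/
def val : List (ℤ × ℤ) → Know ℤ → Flat Bool
  | [], _ => known false
  | t :: ts, P => kor (trv t P) (val ts P)

theorem trv_true (t : ℤ × ℤ) (P : Know ℤ) :
    trv t P = known true ↔ P t.1 = some true ∧ P t.2 = some true ∧ P (t.1 + t.2) = some true := by
  unfold trv
  rw [kand_true, kand_true, inp_eq, inp_eq, inp_eq, and_assoc]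

theorem trv_false (t : ℤ × ℤ) (P : Know ℤ) :
    trv t P = known false ↔
      P t.1 = some false ∨ P t.2 = some false ∨ P (t.1 + t.2) = some false := by
  unfold trv
  rw [kand_false, kand_false, inp_eq, inp_eq, inp_eq, or_assoc]

theorem val_true (P : Know ℤ) :
    ∀ ts, val ts P = known true ↔ ∃ t ∈ ts, trv t P = known true
  | [] => by simp [val]
  | t :: ts => by
    have h := val_true P ts
    unfold val
    rw [kor_true, h]
    simp

theorem val_false (P : Know ℤ) :
    ∀ ts, val ts P = known false ↔ ∀ t ∈ ts, trv t P = known false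
  | [] => by simp [val]
  | t :: ts => by
    have h := val_false P ts
    unfold val
    rw [kor_false, h]
    simp

theorem exists_inputs (es : List ℤ) :
    ∃ l : List (Know ℤ → Flat Bool), Circ l ∧ l.length = es.length ∧
      ∀ e ∈ es, (fun P : Know ℤ => inp (P e)) ∈ l := by
  induction es with
  | nil => exact ⟨[], Circ.nil, rfl, by simp⟩
  | cons e es ih =>
    obtain ⟨l, h1, h2, h3⟩ := ih
    refine ⟨_, Circ.input e inp h1 (fun b => Or.inl rfl), by simp [h2], ?_⟩
    intro e' he'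
    rcases List.mem_cons.1 he' with rfl | he'
    · exact List.mem_cons_self
    · exact List.mem_cons_of_mem _ (h3 e' he')

theorem exists_chain (U : Finset ℤ) {l : List (Know ℤ → Flat Bool)} (hl : Circ l)
    (h0 : (fun _ : Know ℤ => known false) ∈ l)
    (h1 : ∀ e ∈ U, (fun P : Know ℤ => inp (P e)) ∈ l)
    (ts : List (ℤ × ℤ)) (hts : ∀ t ∈ ts, t.1 ∈ U ∧ t.2 ∈ U ∧ t.1 + t.2 ∈ U) :
    ∃ l', Circ l' ∧ (∀ g ∈ l, g ∈ l') ∧ l'.length ≤ l.length + 3 * ts.length ∧ val ts ∈ l' := by
  induction ts with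
  | nil => exact ⟨l, hl, fun g hg => hg, by simp, h0⟩
  | cons t ts ih =>
    obtain ⟨l', g1, g2, g3, g4⟩ := ih fun t ht => hts t (List.mem_cons_of_mem _ ht)
    obtain ⟨u1, u2, u3⟩ := hts t List.mem_cons_self
    have k1 := Circ.gate g1 kand_mono (g2 _ (h1 t.1 u1)) (g2 _ (h1 t.2 u2))
    have k2 := Circ.gate k1 kand_mono List.mem_cons_self
      (List.mem_cons_of_mem _ (g2 _ (h1 (t.1 + t.2) u3)))
    have k3 := Circ.gate k2 kor_mono List.mem_cons_self
      (List.mem_cons_of_mem _ (List.mem_cons_of_mem _ g4))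
    refine ⟨_, k3, fun g hg => List.mem_cons_of_mem _ (List.mem_cons_of_mem _
      (List.mem_cons_of_mem _ (g2 g hg))), ?_, ?_⟩
    · simp only [List.length_cons]; omega
    · exact List.mem_cons_self

/-- the pairs of summands -/
noncomputable def pairs (U : Finset ℤ) : List (ℤ × ℤ) :=
  ((U ×ˢ U).filter fun t => t.1 < t.2 ∧ t.1 ≠ 0 ∧ t.2 ≠ 0 ∧ t.1 + t.2 ∈ U).toList

theorem mem_pairs (U : Finset ℤ) (t : ℤ × ℤ) :
    t ∈ pairs U ↔ (t.1 ∈ U ∧ t.2 ∈ U) ∧ t.1 < t.2 ∧ t.1 ≠ 0 ∧ t.2 ≠ 0 ∧ t.1 + t.2 ∈ U := by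
  simp [pairs]

theorem le_full {P : Know ℤ} {S : Finset ℤ} (hS : Le P (full (· ∈ S))) {z : ℤ} {b : Bool}
    (h : P z = some b) : z ∈ S ↔ b = true := by
  rcases hS z with h1 | h1
  · rw [h] at h1; exact absurd h1 (by simp)
  · rw [h] at h1
    unfold full at h1
    have h2 := Option.some.inj h1
    rw [h2]
    simp

theorem full_of {P : Know ℤ} {S : Finset ℤ} (h : ∀ z b, P z = some b → (z ∈ S ↔ b = true)) :
    Le P (full (· ∈ S)) := by
  intro z
  rcases hz : P z with _ | b
  · exact Or.inl rfl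
  · right
    unfold full
    have := h z b hz
    congr 1
    rcases b with _ | _
    · simp only [Bool.false_eq_true, iff_false] at this
      simp [this]
    · simp only [iff_true] at this
      simp [this]

theorem sem_true (U : Finset ℤ) {P : Know ℤ} (hP : ∃ S ⊆ U, Le P (full (· ∈ S))) :
    val (pairs U) P = known true ↔ ∀ S ⊆ U, Le P (full (· ∈ S)) → HasSum S := by
  rw [val_true]
  constructor
  · rintro ⟨t, ht, hv⟩ S _ hS
    rw [trv_true] at hv
    rw [mem_pairs] at ht
    rw [hasSum_iff]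
    exact ⟨t.1, t.2, ht.2.1, ht.2.2.1, ht.2.2.2.1, (le_full hS hv.1).2 rfl,
      (le_full hS hv.2.1).2 rfl, (le_full hS hv.2.2).2 rfl⟩
  · intro h
    obtain ⟨S₀, hS₀, hS₀'⟩ := hP
    have hsub : ∀ z, P z = some true → z ∈ U := fun z hz => hS₀ ((le_full hS₀' hz).2 rfl)
    have h2 := h (U.filter fun z => P z = some true) (filter_subset _ _) (full_of ?_)
    · rw [hasSum_iff] at h2
      obtain ⟨a, b, h3, h4, h5, h6, h7, h8⟩ := h2
      rw [mem_filter] at h6 h7 h8
      exact ⟨(a, b), (mem_pairs _ _).2 ⟨⟨h6.1, h7.1⟩, h3, h4, h5, h8.1⟩,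
        (trv_true _ _).2 ⟨h6.2, h7.2, h8.2⟩⟩
    · intro z b hz
      rw [mem_filter, hz]
      constructor
      · rintro ⟨-, h3⟩
        exact Option.some.inj h3
      · rintro rfl
        exact ⟨hsub z hz, rfl⟩

theorem sem_false (U : Finset ℤ) {P : Know ℤ} (hP : ∃ S ⊆ U, Le P (full (· ∈ S))) :
    val (pairs U) P = known false ↔ ∀ S ⊆ U, Le P (full (· ∈ S)) → ¬ HasSum S := by
  rw [val_false]
  constructor
  · intro ht S hSU hS hsum
    rw [hasSum_iff] at hsum
    obtain ⟨a, b, h3, h4, h5, h6, h7, h8⟩ := hsum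
    have h9 := ht (a, b) ((mem_pairs _ _).2 ⟨⟨hSU h6, hSU h7⟩, h3, h4, h5, hSU h8⟩)
    rw [trv_false] at h9
    rcases h9 with h | h | h
    · exact absurd ((le_full hS h).1 h6) (by simp)
    · exact absurd ((le_full hS h).1 h7) (by simp)
    · exact absurd ((le_full hS h).1 h8) (by simp)
  · intro h t ht
    rw [mem_pairs] at ht
    by_contra hcon
    rw [trv_false] at hcon
    push Not at hcon
    obtain ⟨S₀, hS₀, hS₀'⟩ := hP
    have hsub : ∀ z, P z = some true → z ∈ U := fun z hz => hS₀ ((le_full hS₀' hz).2 rfl)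
    refine h (U.filter fun z => P z ≠ some false) (filter_subset _ _) (full_of ?_) ?_
    · intro z b hz
      rw [mem_filter, hz]
      constructor
      · rintro ⟨-, h3⟩
        rcases b with _ | _
        · exact absurd rfl h3
        · rfl
      · rintro rfl
        exact ⟨hsub z hz, by simp⟩
    · rw [hasSum_iff]
      exact ⟨t.1, t.2, ht.2.1, ht.2.2.1, ht.2.2.2.1, mem_filter.2 ⟨ht.1.1, hcon.1⟩,
        mem_filter.2 ⟨ht.1.2, hcon.2.1⟩, mem_filter.2 ⟨ht.2.2.2.2, hcon.2.2⟩⟩

/-- the naive three-valued circuit -/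
theorem upperS (U : Finset ℤ) (hU : 2 ≤ U.card) :
    ∃ l : List (Know ℤ → Flat Bool), Circ l ∧ l.length ≤ 4 * U.card ^ 2 ∧
      (∀ n : ℕ, SolvesS n U (1 / 2) (fun _ : Unit => 1) (fun _ => l)) ∧
      ∃ out ∈ l, ∀ P : Know ℤ, (∃ S ⊆ U, Le P (full (· ∈ S))) →
        (out P = known true ↔ ∀ S ⊆ U, Le P (full (· ∈ S)) → HasSum S) ∧
        (out P = known false ↔ ∀ S ⊆ U, Le P (full (· ∈ S)) → ¬ HasSum S) := by
  obtain ⟨l0, a1, a2, a3⟩ := exists_inputs U.toList
  have b1 : Circ ((fun _ : Know ℤ => known false) :: l0) := Circ.const _ a1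
  obtain ⟨l, c1, c2, c3, c4⟩ := exists_chain U b1 List.mem_cons_self
    (fun e he => List.mem_cons_of_mem _ (a3 e (by simpa using he))) (pairs U)
    (fun t ht => by
      rw [mem_pairs] at ht
      exact ⟨ht.1.1, ht.1.2, ht.2.2.2.2⟩)
  have hlen : l.length ≤ 4 * U.card ^ 2 := by
    have h1 : (pairs U).length ≤ U.card ^ 2 := by
      rw [pairs, length_toList]
      refine (card_filter_le _ _).trans ?_
      rw [card_product]
      exact le_of_eq (by ring)
    rw [List.length_cons, a2, length_toList] at c3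
    nlinarith [Nat.mul_le_mul hU hU, Nat.mul_le_mul_right U.card hU]
  refine ⟨l, c1, hlen, fun n => ⟨fun _ => zero_le_one, by simp, fun _ => val (pairs U),
    fun _ => {known true}, fun _ => c4, ?_, ?_⟩, val (pairs U), c4, fun P hP =>
      ⟨sem_true U hP, sem_false U hP⟩⟩
  · intro _ x y hxy hx
    rw [Set.mem_singleton_iff] at hx ⊢
    rw [hx, Flat.le_iff] at hxy
    rcases hxy with h | h
    · exact absurd h (by simp)
    · exact h.symm
  · intro S hSU _
    constructor
    · intro hsum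
      rw [hasSum_iff] at hsum
      obtain ⟨a, b, h3, h4, h5, h6, h7, h8⟩ := hsum
      have h : val (pairs U) (truths (· ∈ S)) = known true := by
        rw [val_true]
        refine ⟨(a, b), (mem_pairs _ _).2 ⟨⟨hSU h6, hSU h7⟩, h3, h4, h5, hSU h8⟩,
          (trv_true _ _).2 ⟨?_, ?_, ?_⟩⟩ <;> (unfold truths; simp [h6, h7, h8])
      rw [filter_true_of_mem (fun _ _ => by rw [Set.mem_singleton_iff]; exact h)]
      norm_num
    · intro hsum
      have h : val (pairs U) (full (· ∈ S)) ≠ known true := by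
        intro hcon
        exact hsum ((sem_true U ⟨S, hSU, fun e => Or.inr rfl⟩).1 hcon S hSU (fun e => Or.inr rfl))
      rw [filter_true_of_mem (fun _ _ => by rw [Set.mem_singleton_iff]; exact h)]
      norm_num

end Pool.Agent.H660.US
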